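import Pool.Agent.Y382.DN.Stm3

/-!
# Project DN, job RECT (helper3 for helper382): rectangles without a grid
-/

set_option autoImplicit false

namespace Pool.Agent.Y3.DN

open Finset Pool.Agent.H554R2.Sem Pool.Agent.H554R2.RK Pool.Agent.H607R2.BW

variable {n : ℕ}

/-- `x` on `T`, `y` elsewhere -/
def mxs (T : Finset (Fin n)) (x y : Fin n → Bool) : Fin n → Bool := fun i => if i ∈ T then x i else y i

theorem mxs_mem {T : Finset (Fin n)} {x y : Fin n → Bool} {i : Fin n} (h : i ∈ T) :
    mxs T x y i = x i := by simp [mxs, h]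

theorem mxs_not_mem {T : Finset (Fin n)} {x y : Fin n → Bool} {i : Fin n} (h : i ∉ T) :
    mxs T x y i = y i := by simp [mxs, h]

/-- the restriction to `T` (false elsewhere) -/
def res (T : Finset (Fin n)) (x : Fin n → Bool) : Fin n → Bool := mxs T x (fun _ => false)

theorem res_eq {T : Finset (Fin n)} {x y : Fin n → Bool} :
    res T x = res T y ↔ ∀ k ∈ T, x k = y k := by
  constructor
  · intro h k hk
    have := congrFun h k
    unfold res at this
    rwa [mxs_mem hk, mxs_mem hk] at this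
  · intro h
    funext k
    unfold res
    by_cases hk : k ∈ T
    · rw [mxs_mem hk, mxs_mem hk, h k hk]
    · rw [mxs_not_mem hk, mxs_not_mem hk]

theorem card_res (T : Finset (Fin n)) (S : Finset (Fin n → Bool)) :
    (S.image (res T)).card ≤ 2 ^ T.card := by
  classical
  have h : (S.image (res T)).card ≤ (T.powerset).card := by
    refine card_le_card_of_injOn (fun x => T.filter fun k => x k = true) ?_ ?_
    · intro x _
      exact mem_powerset.2 (filter_subset _ _)
    · intro x hx y hy hxy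
      rw [mem_coe, mem_image] at hx hy
      obtain ⟨x', -, rfl⟩ := hx
      obtain ⟨y', -, rfl⟩ := hy
      rw [res_eq]
      intro k hk
      have h1 := congrArg (fun s : Finset (Fin n) => (k ∈ s)) hxy
      simp only [mem_filter, hk, true_and, eq_iff_iff] at h1
      have e1 : res T x' k = x' k := mxs_mem hk
      have e2 : res T y' k = y' k := mxs_mem hk
      rw [e1, e2] at h1
      cases h3 : x' k <;> cases h4 : y' k <;> simp [h3, h4] at h1 ⊢
  rwa [card_powerset] at h

/-- an `r × r` grid: the `i`-th line of the type `c` is given by the coordinates of type `c` -/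
def Gr (τ : Fin n → Bool) (r : ℕ) (P : (Fin n → Bool) → Prop) : Prop :=
  ∃ p : Bool → Fin r → Fin n → Bool,
    (∀ i j : Fin r, P (fun k => if τ k then p true j k else p false i k)) ∧
    ∀ (c : Bool) (i i' : Fin r), i ≠ i' → ∃ k, τ k = c ∧ p c i k ≠ p c i' k

theorem gr_of {τ : Fin n → Bool} {A : Finset (Fin n)} {j : Bool} {r : ℕ} (hr : 1 ≤ r)
    {P : (Fin n → Bool) → Prop} (f g : Fin r → Fin n → Bool)
    (key : ∀ a b, P (mxs A (f a) (g b)))
    (f2 : ∀ i i', ∀ k ∈ A, τ k = j → f i k = f i' k)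
    (f3 : ∀ i i', i ≠ i' → ∃ k ∈ A, f i k ≠ f i' k)
    (g2 : ∀ i i', ∀ k, k ∉ A → τ k = !j → g i k = g i' k)
    (g3 : ∀ i i', i ≠ i' → ∃ k, k ∉ A ∧ g i k ≠ g i' k) : Gr τ r P := by
  let z : Fin r := ⟨0, hr⟩
  cases j with
  | false =>
    refine ⟨fun c i => if c then mxs A (f i) (g z) else mxs A (f z) (g i), ?_, ?_⟩
    · intro a b
      refine (congrArg P ?_).mpr (key b a)
      funext k
      by_cases hk : k ∈ A
      · cases ht : τ k
        · simp only [Bool.false_eq_true, if_false, mxs_mem hk]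
          exact f2 _ _ k hk ht
        · simp only [if_true, mxs_mem hk]
      · cases ht : τ k
        · simp only [Bool.false_eq_true, if_false, mxs_not_mem hk]
        · simp only [if_true, mxs_not_mem hk]
          exact g2 _ _ k hk (by rw [ht]; rfl)
    · intro c i i' hne
      cases c with
      | false =>
        obtain ⟨k, hk, hd⟩ := g3 i i' hne
        refine ⟨k, ?_, ?_⟩
        · by_contra ht
          exact hd (g2 i i' k hk (by simpa using ht))
        · simp only [Bool.false_eq_true, if_false, mxs_not_mem hk]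
          exact hd
      | true =>
        obtain ⟨k, hk, hd⟩ := f3 i i' hne
        refine ⟨k, ?_, ?_⟩
        · by_contra ht
          exact hd (f2 i i' k hk (by simpa using ht))
        · simp only [if_true, mxs_mem hk]
          exact hd
  | true =>
    refine ⟨fun c i => if c then mxs A (f z) (g i) else mxs A (f i) (g z), ?_, ?_⟩
    · intro a b
      refine (congrArg P ?_).mpr (key a b)
      funext k
      by_cases hk : k ∈ A
      · cases ht : τ k
        · simp only [Bool.false_eq_true, if_false, mxs_mem hk]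
        · simp only [if_true, mxs_mem hk]
          exact f2 _ _ k hk ht
      · cases ht : τ k
        · simp only [Bool.false_eq_true, if_false, mxs_not_mem hk]
          exact g2 _ _ k hk (by rw [ht]; rfl)
        · simp only [if_true, mxs_not_mem hk]
    · intro c i i' hne
      cases c with
      | false =>
        obtain ⟨k, hk, hd⟩ := f3 i i' hne
        refine ⟨k, ?_, ?_⟩
        · by_contra ht
          exact hd (f2 i i' k hk (by simpa using ht))
        · simp only [Bool.false_eq_true, if_false, mxs_mem hk]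
          exact hd
      | true =>
        obtain ⟨k, hk, hd⟩ := g3 i i' hne
        refine ⟨k, ?_, ?_⟩
        · by_contra ht
          exact hd (g2 i i' k hk (by simpa using ht))
        · simp only [if_true, mxs_not_mem hk]
          exact hd

/-- a star -/
def St (τ : Fin n → Bool) (j : Bool) (r : ℕ) (T : Finset (Fin n)) (S : Finset (Fin n → Bool)) :
    Prop :=
  ∃ f : Fin r → (Fin n → Bool), (∀ i, f i ∈ S) ∧
    (∀ i i', ∀ k ∈ T, τ k = j → f i k = f i' k) ∧
    (∀ i i', i ≠ i' → ∃ k ∈ T, f i k ≠ f i' k)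

theorem img_le {τ : Fin n → Bool} {j : Bool} {r : ℕ} {T : Finset (Fin n)}
    {S : Finset (Fin n → Bool)} (hr : 1 ≤ r) (h : ¬ St τ j r T S) :
    (S.image (res T)).card ≤ (r - 1) * 2 ^ (T.filter fun k => τ k = j).card := by
  classical
  set Tj := T.filter fun k => τ k = j with hTj
  have hfib : ∀ y ∈ (S.image (res T)).image (res Tj),
      ((S.image (res T)).filter fun x => res Tj x = y).card ≤ r - 1 := by
    intro y hy
    by_contra hcon
    push Not at hcon
    apply h
    set S' := (S.image (res T)).filter fun x => res Tj x = y with hS'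
    have hc : Fintype.card (Fin r) ≤ Fintype.card {y // y ∈ S'} := by
      rw [Fintype.card_fin, Fintype.card_coe]; omega
    obtain ⟨e⟩ := Function.Embedding.nonempty_of_card_le hc
    have hex : ∀ i : Fin r, ∃ x ∈ S, res T x = (e i).1 := fun i =>
      mem_image.1 (mem_filter.1 (e i).2).1
    choose f hf1 hf2 using hex
    refine ⟨f, hf1, ?_, ?_⟩
    · intro i i' k hk hj
      have h1 : res Tj (e i).1 = res Tj (e i').1 :=
        (mem_filter.1 (e i).2).2.trans (mem_filter.1 (e i').2).2.symm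
      rw [← hf2, ← hf2] at h1
      have h2 := res_eq.1 h1 k (mem_filter.2 ⟨hk, hj⟩)
      have e1 : res T (f i) k = f i k := mxs_mem hk
      have e2 : res T (f i') k = f i' k := mxs_mem hk
      rwa [e1, e2] at h2
    · intro i i' hne
      by_contra hno
      push Not at hno
      have : res T (f i) = res T (f i') := res_eq.2 hno
      rw [hf2, hf2] at this
      exact hne (e.injective (Subtype.ext this))
  calc _ ≤ (r - 1) * ((S.image (res T)).image (res Tj)).card :=
        card_le_mul_card_image _ _ hfib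
    _ ≤ _ := Nat.mul_le_mul_left _ (card_res Tj _)

theorem type_card (τ : Fin n → Bool) (T : Finset (Fin n)) (j : Bool) :
    (T.filter fun k => τ k = j).card + (T.filter fun k => τ k = !j).card = T.card := by
  classical
  rw [← card_union_of_disjoint]
  · congr 1
    ext k
    simp only [mem_union, mem_filter]
    constructor
    · rintro (h | h) <;> exact h.1
    · intro h
      cases h1 : τ k <;> cases j <;> simp [h]
  · rw [disjoint_left]
    intro k h1 h2
    rw [mem_filter] at h1 h2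
    rw [h1.2] at h2
    exact absurd h2.2 (by cases j <;> simp)

/-- the structure of a rectangle -/
structure Rct (A B : Finset (Fin n)) (φ ψ : Pt n → Prop) (W : Finset (Pt n)) : Prop where
  dis : Disjoint A B
  hφ : ∀ x y, (∀ v, v ∉ B → x v = y v) → (φ x ↔ φ y)
  hψ : ∀ x y, (∀ v, v ∉ A → x v = y v) → (ψ x ↔ ψ y)
  hW : ∀ x, x ∈ W ↔ φ x ∧ ψ x

theorem no_both {A B : Finset (Fin n)} {φ ψ : Pt n → Prop} {W : Finset (Pt n)}
    (hR : Rct A B φ ψ W) {τ : Fin n → Bool} {r : ℕ} (hr : 1 ≤ r)
    (hG : ¬ Gr τ r (fun x => x ∈ W)) {S : Finset (Pt n)} (hS : ∀ x ∈ S, x ∈ W)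
    (hSz : ∀ x ∈ S, ∀ y ∈ S, ∀ k, k ∉ A → k ∉ B → x k = y k) (j : Bool)
    (h1 : St τ j r A S) (h2 : St τ (!j) r B S) : False := by
  obtain ⟨f, f1, f2, f3⟩ := h1
  obtain ⟨g, g1, g2, g3⟩ := h2
  apply hG
  refine gr_of (A := A) (j := j) hr f g ?_ f2 f3 ?_ ?_
  · intro a b
    rw [hR.hW]
    have ha := (hR.hW _).1 (hS _ (f1 a))
    have hb := (hR.hW _).1 (hS _ (g1 b))
    constructor
    · refine (hR.hφ _ _ ?_).2 ha.1
      intro v hv
      by_cases hvA : v ∈ A
      · exact mxs_mem hvA
      · rw [mxs_not_mem hvA]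
        exact hSz _ (g1 b) _ (f1 a) v hvA hv
    · exact (hR.hψ _ _ fun v hv => mxs_not_mem hv).2 hb.2
  · intro i i' k hk hj
    by_cases hkB : k ∈ B
    · exact g2 i i' k hkB hj
    · exact hSz _ (g1 i) _ (g1 i') k hk hkB
  · intro i i' hne
    obtain ⟨k, hk, hd⟩ := g3 i i' hne
    exact ⟨k, fun h => (disjoint_left.1 hR.dis h hk), hd⟩

theorem per_z {A B : Finset (Fin n)} {φ ψ : Pt n → Prop} {W : Finset (Pt n)}
    (hR : Rct A B φ ψ W) {τ : Fin n → Bool} {r : ℕ} (hr : 2 ≤ r)
    (hG : ¬ Gr τ r (fun x => x ∈ W)) {S : Finset (Pt n)} (hS : ∀ x ∈ S, x ∈ W)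
    (hSz : ∀ x ∈ S, ∀ y ∈ S, ∀ k, k ∉ A → k ∉ B → x k = y k) :
    ∃ e : ℕ, S.card ≤ r ^ 2 * 2 ^ e ∧
      ((∃ j, e = (A.filter fun k => τ k = j).card + (B.filter fun k => τ k = j).card) ∨
        2 * e ≤ A.card + 2 * B.card ∨ 2 * e ≤ 2 * A.card + B.card) := by
  classical
  have hr1 : 1 ≤ r := by omega
  have hcard : S.card ≤ (S.image (res A)).card * (S.image (res B)).card := by
    rw [← card_product]
    refine card_le_card_of_injOn (fun x => (res A x, res B x)) ?_ ?_
    · intro x hx
      simp only [coe_product, Set.mem_prod, mem_coe, mem_image]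
      exact ⟨⟨x, hx, rfl⟩, ⟨x, hx, rfl⟩⟩
    · intro x hx y hy hxy
      simp only [Prod.mk.injEq, res_eq] at hxy
      funext k
      by_cases hA : k ∈ A
      · exact hxy.1 k hA
      · by_cases hB : k ∈ B
        · exact hxy.2 k hB
        · exact hSz x hx y hy k hA hB
  have hA := card_res A S
  have hB := card_res B S
  have tA := fun j => type_card τ A j
  have tB := fun j => type_card τ B j
  have hrr : (r - 1) * (r - 1) ≤ r ^ 2 := by
    rw [pow_two]; exact Nat.mul_le_mul (Nat.sub_le _ _) (Nat.sub_le _ _)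
  have hrr1 : r - 1 ≤ r ^ 2 := by nlinarith [Nat.sub_le r 1]
  -- two images small in the same type
  have cj : ∀ j, ¬ St τ j r A S → ¬ St τ j r B S → ∃ e : ℕ, S.card ≤ r ^ 2 * 2 ^ e ∧
      ((∃ j, e = (A.filter fun k => τ k = j).card + (B.filter fun k => τ k = j).card) ∨
        2 * e ≤ A.card + 2 * B.card ∨ 2 * e ≤ 2 * A.card + B.card) := by
    intro j h1 h2
    refine ⟨_, ?_, Or.inl ⟨j, rfl⟩⟩
    calc S.card ≤ _ := hcard
      _ ≤ ((r - 1) * 2 ^ (A.filter fun k => τ k = j).card) *
          ((r - 1) * 2 ^ (B.filter fun k => τ k = j).card) :=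
          Nat.mul_le_mul (img_le hr1 h1) (img_le hr1 h2)
      _ = ((r - 1) * (r - 1)) * 2 ^ ((A.filter fun k => τ k = j).card +
          (B.filter fun k => τ k = j).card) := by rw [pow_add]; ring
      _ ≤ _ := Nat.mul_le_mul_right _ hrr
  have cA : (∀ j, ¬ St τ j r A S) → ∃ e : ℕ, S.card ≤ r ^ 2 * 2 ^ e ∧
      ((∃ j, e = (A.filter fun k => τ k = j).card + (B.filter fun k => τ k = j).card) ∨
        2 * e ≤ A.card + 2 * B.card ∨ 2 * e ≤ 2 * A.card + B.card) := by
    intro h1
    obtain ⟨j, hj⟩ : ∃ j, 2 * (A.filter fun k => τ k = j).card ≤ A.card := by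
      have := tA true
      simp only [Bool.not_true] at this
      by_cases h : 2 * (A.filter fun k => τ k = true).card ≤ A.card
      · exact ⟨true, h⟩
      · exact ⟨false, by omega⟩
    refine ⟨(A.filter fun k => τ k = j).card + B.card, ?_, Or.inr (Or.inl (by omega))⟩
    calc S.card ≤ _ := hcard
      _ ≤ ((r - 1) * 2 ^ (A.filter fun k => τ k = j).card) * 2 ^ B.card :=
          Nat.mul_le_mul (img_le hr1 (h1 j)) hB
      _ = (r - 1) * 2 ^ ((A.filter fun k => τ k = j).card + B.card) := by rw [pow_add]; ring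
      _ ≤ _ := Nat.mul_le_mul_right _ hrr1
  have cB : (∀ j, ¬ St τ j r B S) → ∃ e : ℕ, S.card ≤ r ^ 2 * 2 ^ e ∧
      ((∃ j, e = (A.filter fun k => τ k = j).card + (B.filter fun k => τ k = j).card) ∨
        2 * e ≤ A.card + 2 * B.card ∨ 2 * e ≤ 2 * A.card + B.card) := by
    intro h1
    obtain ⟨j, hj⟩ : ∃ j, 2 * (B.filter fun k => τ k = j).card ≤ B.card := by
      have := tB true
      simp only [Bool.not_true] at this
      by_cases h : 2 * (B.filter fun k => τ k = true).card ≤ B.card
      · exact ⟨true, h⟩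
      · exact ⟨false, by omega⟩
    refine ⟨A.card + (B.filter fun k => τ k = j).card, ?_, Or.inr (Or.inr (by omega))⟩
    calc S.card ≤ _ := hcard
      _ ≤ 2 ^ A.card * ((r - 1) * 2 ^ (B.filter fun k => τ k = j).card) :=
          Nat.mul_le_mul hA (img_le hr1 (h1 j))
      _ = (r - 1) * 2 ^ (A.card + (B.filter fun k => τ k = j).card) := by rw [pow_add]; ring
      _ ≤ _ := Nat.mul_le_mul_right _ hrr1
  have n1 := no_both hR hr1 hG hS hSz true
  have n2 := no_both hR hr1 hG hS hSz false
  simp only [Bool.not_true, Bool.not_false] at n1 n2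
  by_cases a1 : St τ true r A S
  · by_cases a2 : St τ false r A S
    · refine cB fun j => ?_
      cases j
      · exact fun h => n1 a1 h
      · exact fun h => n2 a2 h
    · exact cj false a2 (fun h => n1 a1 h)
  · by_cases a2 : St τ false r A S
    · exact cj true a1 (fun h => n2 a2 h)
    · refine cA fun j => ?_
      cases j
      · exact a2
      · exact a1

/-- case I -/
theorem case1 {A B : Finset (Fin n)} {φ ψ : Pt n → Prop} {W : Finset (Pt n)}
    (hR : Rct A B φ ψ W) {τ : Fin n → Bool} {r : ℕ} (hr : 2 ≤ r)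
    (hG : ¬ Gr τ r (fun x => x ∈ W)) {θ : ℝ}
    (h1 : ∀ j, θ ≤ (A.filter fun k => τ k = j).card + (B.filter fun k => τ k = j).card)
    (h2 : 2 * θ ≤ A.card) (h3 : 2 * θ ≤ B.card) :
    (W.card : ℝ) ≤ (r : ℝ) ^ 2 * (2 : ℝ) ^ ((n : ℝ) - θ) := by
  classical
  set R : Finset (Fin n) := (A ∪ B)ᶜ with hRdef
  have hRc : R.card = n - (A.card + B.card) := by
    rw [hRdef, card_compl, Fintype.card_fin, card_union_of_disjoint hR.dis]
  have hle : A.card + B.card ≤ n := by
    rw [← card_union_of_disjoint hR.dis]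
    exact (card_le_univ _).trans (by rw [Fintype.card_fin])
  have hfib : ∀ y ∈ W.image (res R), ((W.filter fun x => res R x = y).card : ℝ) ≤
      (r : ℝ) ^ 2 * (2 : ℝ) ^ (((A.card : ℝ) + B.card) - θ) := by
    intro y hy
    obtain ⟨e, he1, he2⟩ := per_z hR hr hG (S := W.filter fun x => res R x = y)
      (fun x hx => (mem_filter.1 hx).1) (by
        intro x hx x' hx' k hkA hkB
        have h4 : res R x = res R x' := (mem_filter.1 hx).2.trans (mem_filter.1 hx').2.symm
        exact res_eq.1 h4 k (by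
          rw [hRdef, mem_compl, mem_union]
          exact fun h => h.elim hkA hkB))
    have he3 : (e : ℝ) ≤ (A.card : ℝ) + B.card - θ := by
      rcases he2 with ⟨j, hj⟩ | hj | hj
      · have h5 := h1 (!j)
        have tA := type_card τ A j
        have tB := type_card τ B j
        have tA' : ((A.filter fun k => τ k = j).card : ℝ) + (A.filter fun k => τ k = !j).card =
            A.card := by exact_mod_cast tA
        have tB' : ((B.filter fun k => τ k = j).card : ℝ) + (B.filter fun k => τ k = !j).card =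
            B.card := by exact_mod_cast tB
        rw [hj]
        push_cast
        linarith
      · have h5 : 2 * (e : ℝ) ≤ A.card + 2 * B.card := by exact_mod_cast hj
        linarith
      · have h5 : 2 * (e : ℝ) ≤ 2 * A.card + B.card := by exact_mod_cast hj
        linarith
    calc ((W.filter fun x => res R x = y).card : ℝ) ≤ ((r ^ 2 * 2 ^ e : ℕ) : ℝ) := by
          exact_mod_cast he1
      _ = (r : ℝ) ^ 2 * (2 : ℝ) ^ (e : ℝ) := by rw [Real.rpow_natCast]; push_cast; ring
      _ ≤ _ := mul_le_mul_of_nonneg_left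
          (Real.rpow_le_rpow_of_exponent_le (by norm_num) he3) (by positivity)
  rw [card_eq_sum_card_image (res R) W]
  push_cast
  calc ∑ y ∈ W.image (res R), ((W.filter fun x => res R x = y).card : ℝ)
      ≤ ∑ y ∈ W.image (res R), (r : ℝ) ^ 2 * (2 : ℝ) ^ (((A.card : ℝ) + B.card) - θ) :=
        sum_le_sum hfib
    _ = ((W.image (res R)).card : ℝ) * ((r : ℝ) ^ 2 * (2 : ℝ) ^ (((A.card : ℝ) + B.card) - θ)) := by
        rw [sum_const, nsmul_eq_mul]
    _ ≤ (2 : ℝ) ^ ((n : ℝ) - (A.card + B.card)) *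
        ((r : ℝ) ^ 2 * (2 : ℝ) ^ (((A.card : ℝ) + B.card) - θ)) := by
        refine mul_le_mul_of_nonneg_right ?_ (by positivity)
        have h4 : ((W.image (res R)).card : ℝ) ≤ ((2 ^ R.card : ℕ) : ℝ) := by
          exact_mod_cast card_res R W
        refine h4.trans (le_of_eq ?_)
        rw [hRc, Nat.cast_pow, Nat.cast_ofNat, ← Real.rpow_natCast, Nat.cast_sub hle]
        push_cast
        rfl
    _ = (r : ℝ) ^ 2 * ((2 : ℝ) ^ ((n : ℝ) - (A.card + B.card)) *
        (2 : ℝ) ^ (((A.card : ℝ) + B.card) - θ)) := by ring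
    _ = _ := by
        rw [← Real.rpow_add (by norm_num)]
        congr 2
        ring

/-- assembling a point -/
def asm (τ : Fin n → Bool) (j : Bool) (A' B' : Finset (Fin n)) (x : {k // τ k = j} → Bool)
    (u : Fin n → Bool) (y1 : {k // k ∈ A'} → Bool) (y2 : {k // k ∈ B'} → Bool) : Fin n → Bool :=
  fun k => if h : τ k = j then x ⟨k, h⟩ else if h : k ∈ A' then y1 ⟨k, h⟩ else
    if h : k ∈ B' then y2 ⟨k, h⟩ else u k

theorem case2 (hK : Pool.Agent.Y382.RK.S_SKST) {A B : Finset (Fin n)} {φ ψ : Pt n → Prop}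
    {W : Finset (Pt n)} (hR : Rct A B φ ψ W) {τ : Fin n → Bool} {r ρ : ℕ} (hr : 1 ≤ r)
    (hρ : 1 ≤ ρ) (hrρ : r ≤ ρ ^ 2) (hG : ¬ Gr τ r (fun x => x ∈ W)) (j : Bool) (m : ℕ)
    (hJ : (univ.filter fun k => τ k = j).card = m)
    (A' B' R' : Finset (Fin n)) (hA' : A' = A.filter fun k => τ k = !j)
    (hB' : B' = B.filter fun k => τ k = !j)
    (hR' : ∀ k, k ∈ R' ↔ τ k = !j ∧ k ∉ A ∧ k ∉ B) :
    (W.card : ℝ) ≤ (2 : ℝ) ^ R'.card * (r * ((2 : ℝ) ^ m) ^ (1 - 1 / (ρ : ℝ)) *
      ((2 : ℝ) ^ A'.card * (2 : ℝ) ^ B'.card) +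
        ρ * (2 : ℝ) ^ m * ((2 : ℝ) ^ A'.card + (2 : ℝ) ^ B'.card)) := by
  classical
  have hnj : ∀ k : Fin n, τ k = !j → ¬ τ k = j := by
    intro k h1 h2
    rw [h2] at h1
    exact absurd h1 (by cases j <;> simp)
  have hjn : ∀ k : Fin n, ¬ τ k = j → τ k = !j := by
    intro k h1
    cases h2 : τ k <;> cases j <;> simp_all
  have mA' : ∀ k, k ∈ A' ↔ k ∈ A ∧ τ k = !j := fun k => by rw [hA', mem_filter]
  have mB' : ∀ k, k ∈ B' ↔ k ∈ B ∧ τ k = !j := fun k => by rw [hB', mem_filter]
  have hdis : ∀ k, k ∈ A' → k ∉ B' := by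
    intro k h1 h2
    exact disjoint_left.1 hR.dis ((mA' k).1 h1).1 ((mB' k).1 h2).1
  have ej : ∀ (x : {k // τ k = j} → Bool) (u : Fin n → Bool) (y1 : {k // k ∈ A'} → Bool)
      (y2 : {k // k ∈ B'} → Bool) (k : Fin n) (h : τ k = j),
      asm τ j A' B' x u y1 y2 k = x ⟨k, h⟩ := by
    intro x u y1 y2 k h
    unfold asm
    rw [dif_pos h]
  have eA : ∀ (x : {k // τ k = j} → Bool) (u : Fin n → Bool) (y1 : {k // k ∈ A'} → Bool)
      (y2 : {k // k ∈ B'} → Bool) (k : Fin n) (h : k ∈ A'),
      asm τ j A' B' x u y1 y2 k = y1 ⟨k, h⟩ := by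
    intro x u y1 y2 k h
    unfold asm
    rw [dif_neg (hnj k ((mA' k).1 h).2), dif_pos h]
  have eB : ∀ (x : {k // τ k = j} → Bool) (u : Fin n → Bool) (y1 : {k // k ∈ A'} → Bool)
      (y2 : {k // k ∈ B'} → Bool) (k : Fin n) (h : k ∈ B'),
      asm τ j A' B' x u y1 y2 k = y2 ⟨k, h⟩ := by
    intro x u y1 y2 k h
    unfold asm
    rw [dif_neg (hnj k ((mB' k).1 h).2), dif_neg (fun h' => hdis k h' h), dif_pos h]
  have eR : ∀ (x : {k // τ k = j} → Bool) (u : Fin n → Bool) (y1 : {k // k ∈ A'} → Bool)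
      (y2 : {k // k ∈ B'} → Bool) (k : Fin n), ¬ τ k = j → k ∉ A' → k ∉ B' →
      asm τ j A' B' x u y1 y2 k = u k := by
    intro x u y1 y2 k h1 h2 h3
    unfold asm
    rw [dif_neg h1, dif_neg h2, dif_neg h3]
  have hfib : ∀ y ∈ W.image (res R'), ((W.filter fun x => res R' x = y).card : ℝ) ≤
      r * ((2 : ℝ) ^ m) ^ (1 - 1 / (ρ : ℝ)) * ((2 : ℝ) ^ A'.card * (2 : ℝ) ^ B'.card) +
        ρ * (2 : ℝ) ^ m * ((2 : ℝ) ^ A'.card + (2 : ℝ) ^ B'.card) := by
    intro y hy
    obtain ⟨u, hu, rfl⟩ := mem_image.1 hy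
    let Φ : ({k // τ k = j} → Bool) → Finset ({k // k ∈ A'} → Bool) := fun x =>
      univ.filter fun y1 => φ (asm τ j A' B' x u y1 (fun _ => false))
    let Ψ : ({k // τ k = j} → Bool) → Finset ({k // k ∈ B'} → Bool) := fun x =>
      univ.filter fun y2 => ψ (asm τ j A' B' x u (fun _ => false) y2)
    have hφ' : ∀ x y1 y2, φ (asm τ j A' B' x u y1 y2) ↔
        φ (asm τ j A' B' x u y1 (fun _ => false)) := by
      intro x y1 y2
      refine hR.hφ _ _ fun v hv => ?_
      by_cases h1 : τ v = j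
      · rw [ej _ _ _ _ v h1, ej _ _ _ _ v h1]
      · by_cases h2 : v ∈ A'
        · rw [eA _ _ _ _ v h2, eA _ _ _ _ v h2]
        · have h3 : v ∉ B' := fun h => hv ((mB' v).1 h).1
          rw [eR _ _ _ _ v h1 h2 h3, eR _ _ _ _ v h1 h2 h3]
    have hψ' : ∀ x y1 y2, ψ (asm τ j A' B' x u y1 y2) ↔
        ψ (asm τ j A' B' x u (fun _ => false) y2) := by
      intro x y1 y2
      refine hR.hψ _ _ fun v hv => ?_
      by_cases h1 : τ v = j
      · rw [ej _ _ _ _ v h1, ej _ _ _ _ v h1]
      · have h2 : v ∉ A' := fun h => hv ((mA' v).1 h).1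
        by_cases h3 : v ∈ B'
        · rw [eB _ _ _ _ v h3, eB _ _ _ _ v h3]
        · rw [eR _ _ _ _ v h1 h2 h3, eR _ _ _ _ v h1 h2 h3]
    have hmem : ∀ x y1 y2, y1 ∈ Φ x → y2 ∈ Ψ x → asm τ j A' B' x u y1 y2 ∈ W := by
      intro x y1 y2 h1 h2
      rw [hR.hW]
      exact ⟨(hφ' x y1 y2).2 (mem_filter.1 h1).2, (hψ' x y1 y2).2 (mem_filter.1 h2).2⟩
    -- the count
    have hcount : (W.filter fun x => res R' x = res R' u).card ≤ ∑ x, (Φ x).card * (Ψ x).card := by
      have hself : ∀ w ∈ W.filter (fun x => res R' x = res R' u),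
          asm τ j A' B' (fun k => w k.1) u (fun k => w k.1) (fun k => w k.1) = w := by
        intro w hw
        funext k
        by_cases h1 : τ k = j
        · rw [ej _ _ _ _ k h1]
        · by_cases h2 : k ∈ A'
          · rw [eA _ _ _ _ k h2]
          · by_cases h3 : k ∈ B'
            · rw [eB _ _ _ _ k h3]
            · rw [eR _ _ _ _ k h1 h2 h3]
              have h4 : k ∈ R' := (hR' k).2 ⟨hjn k h1, fun h => h2 ((mA' k).2 ⟨h, hjn k h1⟩),
                fun h => h3 ((mB' k).2 ⟨h, hjn k h1⟩)⟩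
              exact (res_eq.1 (mem_filter.1 hw).2 k h4).symm
      have hc1 : (W.filter fun x => res R' x = res R' u).card ≤
          ((univ : Finset ({k // τ k = j} → Bool)).sigma fun x => Φ x ×ˢ Ψ x).card := by
        refine card_le_card_of_injOn (fun w => ⟨fun k => w k.1, fun k => w k.1, fun k => w k.1⟩)
          ?_ ?_
        · intro w hw
          have hw2 := (hR.hW w).1 (mem_filter.1 hw).1
          rw [mem_coe, mem_sigma]
          refine ⟨mem_univ _, ?_⟩
          rw [mem_product]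
          constructor
          · refine mem_filter.2 ⟨mem_univ _, ?_⟩
            rw [← hφ' _ _ (fun k => w k.1)]
            rw [hself w hw]
            exact hw2.1
          · refine mem_filter.2 ⟨mem_univ _, ?_⟩
            rw [← hψ' _ (fun k => w k.1) _]
            rw [hself w hw]
            exact hw2.2
        · intro w hw w' hw' he
          have e1 := hself w hw
          have e2 := hself w' hw'
          simp only [Sigma.mk.injEq, heq_eq_eq, Prod.mk.injEq] at he
          obtain ⟨he1, he2, he3⟩ := he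
          rw [← e1, ← e2, he1, he2, he3]
      rw [card_sigma] at hc1
      refine hc1.trans (le_of_eq (sum_congr rfl fun x _ => ?_))
      rw [card_product]
    -- no grid
    have hno : ∀ (x : Fin r → ({k // τ k = j} → Bool))
        (y : Fin r → ({k // k ∈ A'} → Bool) × ({k // k ∈ B'} → Bool)),
        Function.Injective x → Function.Injective y →
        ∃ i j', ¬ ((y j').1 ∈ Φ (x i) ∧ (y j').2 ∈ Ψ (x i)) := by
      intro x y hx hy
      by_contra hcon
      push Not at hcon
      apply hG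
      let z0 : Fin r := ⟨0, hr⟩
      have hw : ∀ a b, asm τ j A' B' (x a) u (y b).1 (y b).2 ∈ W := fun a b =>
        hmem _ _ _ (hcon a b).1 (hcon a b).2
      refine gr_of (A := univ.filter fun k => τ k = j) (j := !j) hr
        (fun a => asm τ j A' B' (x a) u (y z0).1 (y z0).2)
        (fun b => asm τ j A' B' (x z0) u (y b).1 (y b).2) ?_ ?_ ?_ ?_ ?_
      · intro a b
        have he : mxs (univ.filter fun k => τ k = j)
            (asm τ j A' B' (x a) u (y z0).1 (y z0).2)
            (asm τ j A' B' (x z0) u (y b).1 (y b).2) = asm τ j A' B' (x a) u (y b).1 (y b).2 := by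
          funext k
          by_cases h1 : τ k = j
          · rw [mxs_mem (mem_filter.2 ⟨mem_univ _, h1⟩), ej _ _ _ _ k h1, ej _ _ _ _ k h1]
          · rw [mxs_not_mem (fun h => h1 (mem_filter.1 h).2)]
            by_cases h2 : k ∈ A'
            · rw [eA _ _ _ _ k h2, eA _ _ _ _ k h2]
            · by_cases h3 : k ∈ B'
              · rw [eB _ _ _ _ k h3, eB _ _ _ _ k h3]
              · rw [eR _ _ _ _ k h1 h2 h3, eR _ _ _ _ k h1 h2 h3]
        rw [he]
        exact hw a b
      · intro i i' k hk hk2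
        exact absurd (mem_filter.1 hk).2 (hnj k hk2)
      · intro a a' hne
        have h1 : x a ≠ x a' := fun h => hne (hx h)
        obtain ⟨k, hk⟩ := Function.ne_iff.1 h1
        refine ⟨k.1, mem_filter.2 ⟨mem_univ _, k.2⟩, ?_⟩
        rw [ej _ _ _ _ k.1 k.2, ej _ _ _ _ k.1 k.2]
        exact hk
      · intro i i' k hk hk2
        exfalso
        apply hk
        rw [Bool.not_not] at hk2
        exact mem_filter.2 ⟨mem_univ _, hk2⟩
      · intro b b' hne
        have h1 : y b ≠ y b' := fun h => hne (hy h)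
        by_cases h2 : (y b).1 = (y b').1
        · have h3 : (y b).2 ≠ (y b').2 := fun h => h1 (Prod.ext h2 h)
          obtain ⟨k, hk⟩ := Function.ne_iff.1 h3
          refine ⟨k.1, fun h => hnj k.1 ((mB' k.1).1 k.2).2 (mem_filter.1 h).2, ?_⟩
          rw [eB _ _ _ _ k.1 k.2, eB _ _ _ _ k.1 k.2]
          exact hk
        · obtain ⟨k, hk⟩ := Function.ne_iff.1 h2
          refine ⟨k.1, fun h => hnj k.1 ((mA' k.1).1 k.2).2 (mem_filter.1 h).2, ?_⟩
          rw [eA _ _ _ _ k.1 k.2, eA _ _ _ _ k.1 k.2]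
          exact hk
    have hmain := hK ({k // τ k = j} → Bool) ({k // k ∈ A'} → Bool) ({k // k ∈ B'} → Bool) Φ Ψ r ρ
      hρ hr hrρ hno
    have c1 : Fintype.card ({k // τ k = j} → Bool) = 2 ^ m := by
      rw [Fintype.card_fun, Fintype.card_bool, Fintype.card_subtype, hJ]
    have c2 : Fintype.card ({k // k ∈ A'} → Bool) = 2 ^ A'.card := by
      rw [Fintype.card_fun, Fintype.card_bool, Fintype.card_coe]
    have c3 : Fintype.card ({k // k ∈ B'} → Bool) = 2 ^ B'.card := by
      rw [Fintype.card_fun, Fintype.card_bool, Fintype.card_coe]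
    rw [c1, c2, c3] at hmain
    push_cast at hmain
    refine le_trans ?_ hmain
    exact_mod_cast hcount
  rw [card_eq_sum_card_image (res R') W]
  push_cast
  calc ∑ y ∈ W.image (res R'), ((W.filter fun x => res R' x = y).card : ℝ)
      ≤ ∑ y ∈ W.image (res R'), (r * ((2 : ℝ) ^ m) ^ (1 - 1 / (ρ : ℝ)) *
        ((2 : ℝ) ^ A'.card * (2 : ℝ) ^ B'.card) +
        ρ * (2 : ℝ) ^ m * ((2 : ℝ) ^ A'.card + (2 : ℝ) ^ B'.card)) := sum_le_sum hfib
    _ = ((W.image (res R')).card : ℝ) * _ := by rw [sum_const, nsmul_eq_mul]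
    _ ≤ _ := by
        refine mul_le_mul_of_nonneg_right ?_ (by positivity)
        exact_mod_cast card_res R' W

/-- the type of a coordinate: `false` for the first string, `true` for the second one -/
def ty (m : ℕ) (k : Fin (m + m)) : Bool := decide (m ≤ k.val)

theorem ty_card (m : ℕ) (j : Bool) : (univ.filter fun k => ty m k = j).card = m := by
  classical
  cases j with
  | false =>
    have h : (univ.filter fun k => ty m k = false) = univ.map (Fin.castAddEmb m) := by
      ext k
      simp only [mem_filter, mem_univ, true_and, mem_map, ty, decide_eq_false_iff_not, not_le]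
      constructor
      · intro h
        exact ⟨⟨k.val, h⟩, rfl⟩
      · rintro ⟨t, rfl⟩
        exact t.2
    rw [h, card_map, card_univ, Fintype.card_fin]
  | true =>
    have h : (univ.filter fun k => ty m k = true) = univ.map (Fin.natAddEmb m) := by
      ext k
      simp only [mem_filter, mem_univ, true_and, mem_map, ty, decide_eq_true_eq]
      constructor
      · intro h
        refine ⟨⟨k.val - m, by omega⟩, ?_⟩
        apply Fin.ext
        simp only [Fin.natAddEmb_apply, Fin.val_natAdd]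
        omega
      · rintro ⟨t, rfl⟩
        simp
    rw [h, card_map, card_univ, Fintype.card_fin]

theorem no_gr {m r : ℕ} {W : Finset (Pt (m + m))}
    (hgrid : ∀ x y : Fin r → Str m, Function.Injective x → Function.Injective y →
        ∃ i j, Fin.append (x i) (y j) ∉ W) : ¬ Gr (ty m) r (fun x => x ∈ W) := by
  rintro ⟨p, hp1, hp2⟩
  have h1 : Function.Injective (fun (i : Fin r) (t : Fin m) => p false i (Fin.castAdd m t)) := by
    intro i i' h
    by_contra hne
    obtain ⟨k, hk, hd⟩ := hp2 false i i' hne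
    have hk' : k.val < m := by
      simpa [ty] using hk
    exact hd (congrFun h ⟨k.val, hk'⟩)
  have h2 : Function.Injective (fun (i : Fin r) (t : Fin m) => p true i (Fin.natAdd m t)) := by
    intro i i' h
    by_contra hne
    obtain ⟨k, hk, hd⟩ := hp2 true i i' hne
    have hk' : m ≤ k.val := by
      simpa [ty] using hk
    have h3 := congrFun h ⟨k.val - m, by omega⟩
    have h4 : Fin.natAdd m ⟨k.val - m, by omega⟩ = k := by
      apply Fin.ext
      simp only [Fin.val_natAdd]
      omega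
    simp only [h4] at h3
    exact hd h3
  obtain ⟨i, j, hij⟩ := hgrid _ _ h1 h2
  apply hij
  have h3 : Fin.append (fun t : Fin m => p false i (Fin.castAdd m t))
      (fun t : Fin m => p true j (Fin.natAdd m t)) =
      fun k => if ty m k then p true j k else p false i k := by
    funext k
    refine Fin.addCases (fun t => ?_) (fun t => ?_) k
    · rw [Fin.append_left, if_neg]
      simp [ty]
    · rw [Fin.append_right, if_pos]
      simp [ty]
  rw [h3]
  exact hp1 i j

theorem t_RECT : Pool.Agent.Y382.RK.S_SKST → Pool.Agent.Y382.RK.S_RECT := by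
  classical
  intro hK Q r ρ hQ hr hrρ
  refine ⟨(r : ℝ) ^ 2 + r + 2 * ρ + 1, by positivity, ?_⟩
  intro m W hrect hgrid
  obtain ⟨A, B, hdis, hA, hB, φ, ψ, hφ, hψ, hW⟩ := hrect
  have hR : Rct A B φ ψ W := ⟨hdis, hφ, hψ, hW⟩
  have hG := no_gr hgrid
  have hρ : 1 ≤ ρ := by
    rcases Nat.eq_zero_or_pos ρ with h | h
    · rw [h] at hrρ
      simp at hrρ
      omega
    · exact h
  have hQ0 : (0 : ℝ) < Q := by exact_mod_cast (by omega : 0 < Q)
  have hQ1 : (1 : ℝ) ≤ Q := by exact_mod_cast hQ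
  have hm0 : (0 : ℝ) ≤ m := Nat.cast_nonneg m
  have hA' : 2 * (m : ℝ) / Q ≤ A.card := by
    rw [div_le_iff₀ hQ0]
    have h1 : ((m + m : ℕ) : ℝ) ≤ ((Q * A.card : ℕ) : ℝ) := by exact_mod_cast hA
    push_cast at h1
    linarith
  have hB' : 2 * (m : ℝ) / Q ≤ B.card := by
    rw [div_le_iff₀ hQ0]
    have h1 : ((m + m : ℕ) : ℝ) ≤ ((Q * B.card : ℕ) : ℝ) := by exact_mod_cast hB
    push_cast at h1
    linarith
  set θ : ℝ := m / (4 * Q) with hθ
  set q : ℝ := m / Q with hq
  have hq0 : 0 ≤ q := by positivity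
  have hθq : θ = q / 4 := by rw [hθ, hq]; field_simp
  have h2q : 2 * (m : ℝ) / Q = 2 * q := by rw [hq]; ring
  rw [h2q] at hA' hB'
  have hN1 : ((2 : ℝ) ^ m) ^ (2 - 1 / (4 * Q : ℝ)) = (2 : ℝ) ^ (2 * (m : ℝ) - θ) := by
    rw [← Real.rpow_natCast, ← Real.rpow_mul (by norm_num), hθ]
    congr 1
    field_simp
  have hN2 : ((2 : ℝ) ^ m) ^ (2 - 1 / (ρ : ℝ)) =
      ((2 : ℝ) ^ m) ^ (1 - 1 / (ρ : ℝ)) * (2 : ℝ) ^ m := by
    nth_rewrite 3 [← Real.rpow_one ((2 : ℝ) ^ m)]
    rw [← Real.rpow_add (by positivity)]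
    congr 1
    ring
  set P1 := ((2 : ℝ) ^ m) ^ (2 - 1 / (4 * Q : ℝ)) with hP1
  set P2 := ((2 : ℝ) ^ m) ^ (2 - 1 / (ρ : ℝ)) with hP2
  have hP10 : 0 < P1 := by positivity
  have hP20 : 0 < P2 := by positivity
  by_cases hI : ∀ j, θ ≤ (A.filter fun k => ty m k = j).card + (B.filter fun k => ty m k = j).card
  · have h1 := case1 hR hr hG hI (by rw [hθq]; linarith) (by rw [hθq]; linarith)
    have h2 : ((m + m : ℕ) : ℝ) - θ = 2 * (m : ℝ) - θ := by push_cast; ring
    rw [h2, ← hN1] at h1
    calc (W.card : ℝ) ≤ (r : ℝ) ^ 2 * P1 := h1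
      _ ≤ ((r : ℝ) ^ 2 + r + 2 * ρ + 1) * P1 := by
          refine mul_le_mul_of_nonneg_right ?_ hP10.le
          have : (0 : ℝ) ≤ r := Nat.cast_nonneg r
          have : (0 : ℝ) ≤ ρ := Nat.cast_nonneg ρ
          linarith
      _ ≤ _ := mul_le_mul_of_nonneg_left (by linarith) (by positivity)
  · push Not at hI
    obtain ⟨j, hj⟩ := hI
    set A' := A.filter fun k => ty m k = !j with hA'def
    set B' := B.filter fun k => ty m k = !j with hB'def
    set R' := univ.filter (fun k => ty m k = !j ∧ k ∉ A ∧ k ∉ B) with hR'def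
    have h1 := case2 hK hR (by omega) hρ hrρ hG j m (ty_card m j) A' B' R' hA'def hB'def
      (by intro k; rw [hR'def]; simp)
    have tA : ((A.filter fun k => ty m k = j).card : ℝ) + A'.card = A.card := by
      exact_mod_cast type_card (ty m) A j
    have tB : ((B.filter fun k => ty m k = j).card : ℝ) + B'.card = B.card := by
      exact_mod_cast type_card (ty m) B j
    have hα0 : (0 : ℝ) ≤ (A.filter fun k => ty m k = j).card := Nat.cast_nonneg _
    have hβ0 : (0 : ℝ) ≤ (B.filter fun k => ty m k = j).card := Nat.cast_nonneg _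
    have hα : q ≤ A'.card := by rw [hθq] at hj; linarith
    have hβ : q ≤ B'.card := by rw [hθq] at hj; linarith
    have hsum : R'.card + A'.card + B'.card = m := by
      refine Eq.trans ?_ (ty_card m (!j))
      rw [← card_union_of_disjoint, ← card_union_of_disjoint]
      · congr 1
        ext k
        simp only [hA'def, hB'def, hR'def, mem_union, mem_filter, mem_univ, true_and]
        tauto
      · rw [disjoint_left]
        intro k hk hk2
        rw [hB'def, mem_filter] at hk2
        rw [mem_union, hA'def, hR'def, mem_filter, mem_filter] at hk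
        rcases hk with hk | hk
        · exact hk.2.2.2 hk2.1
        · exact disjoint_left.1 hdis hk.1 hk2.1
      · rw [disjoint_left]
        intro k hk hk2
        rw [hA'def, mem_filter] at hk2
        rw [hR'def, mem_filter] at hk
        exact hk.2.2.1 hk2.1
    have hsumR : (R'.card : ℝ) + A'.card + B'.card = m := by exact_mod_cast hsum
    have e1 : (2 : ℝ) ^ R'.card * ((2 : ℝ) ^ A'.card * (2 : ℝ) ^ B'.card) = (2 : ℝ) ^ m := by
      rw [← pow_add, ← pow_add, ← add_assoc, hsum]
    have e2 : (2 : ℝ) ^ R'.card * (2 : ℝ) ^ A'.card ≤ (2 : ℝ) ^ ((m : ℝ) - q) := by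
      rw [← pow_add, ← Real.rpow_natCast]
      refine Real.rpow_le_rpow_of_exponent_le (by norm_num) ?_
      push_cast
      linarith
    have e3 : (2 : ℝ) ^ R'.card * (2 : ℝ) ^ B'.card ≤ (2 : ℝ) ^ ((m : ℝ) - q) := by
      rw [← pow_add, ← Real.rpow_natCast]
      refine Real.rpow_le_rpow_of_exponent_le (by norm_num) ?_
      push_cast
      linarith
    have e4 : (2 : ℝ) ^ m * (2 : ℝ) ^ ((m : ℝ) - q) ≤ P1 := by
      rw [hN1, ← Real.rpow_natCast, ← Real.rpow_add (by norm_num)]
      refine Real.rpow_le_rpow_of_exponent_le (by norm_num) ?_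
      rw [hθq]
      linarith
    have hρ0 : (0 : ℝ) ≤ ρ := Nat.cast_nonneg ρ
    have hr0 : (0 : ℝ) ≤ r := Nat.cast_nonneg r
    have hN0 : (0 : ℝ) ≤ (2 : ℝ) ^ m := by positivity
    calc (W.card : ℝ) ≤ _ := h1
      _ = r * (((2 : ℝ) ^ m) ^ (1 - 1 / (ρ : ℝ)) *
            ((2 : ℝ) ^ R'.card * ((2 : ℝ) ^ A'.card * (2 : ℝ) ^ B'.card))) +
          ρ * ((2 : ℝ) ^ m * ((2 : ℝ) ^ R'.card * (2 : ℝ) ^ A'.card)) +
          ρ * ((2 : ℝ) ^ m * ((2 : ℝ) ^ R'.card * (2 : ℝ) ^ B'.card)) := by ring
      _ ≤ r * P2 + ρ * P1 + ρ * P1 := by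
          rw [e1, ← hN2]
          have f2 := (mul_le_mul_of_nonneg_left e2 hN0).trans e4
          have f3 := (mul_le_mul_of_nonneg_left e3 hN0).trans e4
          have g2 := mul_le_mul_of_nonneg_left f2 hρ0
          have g3 := mul_le_mul_of_nonneg_left f3 hρ0
          linarith
      _ ≤ ((r : ℝ) ^ 2 + r + 2 * ρ + 1) * (P1 + P2) := by
          have k1 : 0 ≤ (r : ℝ) ^ 2 * (P1 + P2) := by positivity
          have k2 : 0 ≤ (r : ℝ) * P1 := by positivity
          have k3 : 0 ≤ 2 * (ρ : ℝ) * P2 := by positivity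
          nlinarith

end Pool.Agent.Y3.DN
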